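import Pool.Agent.Helper74.LE.GoalsH

/-!
# Project LE (copied from the LL proof Helper41/LL/HN.lean) (MP_cc6379_al), packet HN
-/

set_option autoImplicit false

namespace Pool.Agent.Helper74.LE.C_HN

open LaurentPolynomial Pool.Agent.Helper15.RA Pool.Agent.Helper45.AM Pool.Agent.Helper74.LL Pool.Agent.Helper74.LE

variable {S W H : Type} [Group W] [Ring H] [Algebra ℤ[T;T⁻¹] H]

/-- the step: `x = x' q`, `y = q' y'` with `q ≠ 1` or `q' ≠ 1` -/
lemma step (X : TE S W H) (M n : ℕ) (hB : X.BP M n) (P Q : Set S) (hP : Sm P) (hQ : Sm Q) (hPQ : P ⊆ Q)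
    (x g y : W) (hx : XR X.cs P x) (hg : g ∈ par X.cs P) (hy : XL X.cs P y)
    (hn : X.cs.length x + X.cs.length y ≤ n)
    (hd : ∃ v ∈ Q, X.cs.IsRightDescent x v ∨ X.cs.IsLeftDescent y v) :
    X.LP M ((M : ℤ) - X.α g) (X.B x g y) := by
  obtain ⟨-, ga2, ga3⟩ := Pool.Agent.Helper15.AM.k_gpa S W X.M X.cs Q
  obtain ⟨-, -, -, gc4, gc5, -, -⟩ := Pool.Agent.Helper15.AM.k_gpc S W X.M X.cs Q
  obtain ⟨x', q, hq, hx', rfl⟩ := ga2 x
  obtain ⟨q', hq', y', hy', rfl⟩ := gc4 y
  have hlx : X.cs.length (x' * q) = X.cs.length x' + X.cs.length q := ga3 x' hx' q hq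
  have hly : X.cs.length (q' * y') = X.cs.length q' + X.cs.length y' := gc5 y' hy' q' hq'
  have hs : ∀ i ∈ P, X.cs.simple i ∈ par X.cs Q := fun i hi =>
    Subgroup.subset_closure ⟨i, hPQ hi, rfl⟩
  -- `q ∈ X_P`, `q' ∈ Y_P`
  have hqR : XR X.cs P q := by
    intro i hi
    have h1 := hx i hi
    rw [mul_assoc, ga3 x' hx' _ (mul_mem hq (hs i hi))] at h1
    omega
  have hqL : XL X.cs P q' := by
    intro i hi
    have h1 := hy i hi
    rw [← mul_assoc, gc5 y' hy' _ (mul_mem (hs i hi) hq')] at h1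
    omega
  -- the length goes down
  have hlt : X.cs.length x' + X.cs.length y' < n := by
    obtain ⟨v, hv, h1 | h1⟩ := hd
    · have h2 : q ≠ 1 := by
        rintro rfl
        rw [mul_one] at h1
        have h3 := X.cs.isRightDescent_iff.mp h1
        have h4 := hx' v hv
        omega
      have h3 : X.cs.length q ≠ 0 := fun h => h2 (X.cs.length_eq_zero_iff.mp h)
      omega
    · have h2 : q' ≠ 1 := by
        rintro rfl
        rw [one_mul] at h1
        have h3 := X.cs.isLeftDescent_iff.mp h1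
        have h4 := hy' v hv
        omega
      have h3 : X.cs.length q' ≠ 0 := fun h => h2 (X.cs.length_eq_zero_iff.mp h)
      omega
  have hTx : X.D.t (x' * q) = X.D.t x' * X.D.t q := (X.D.mul x' q hlx).symm
  have hTy : X.D.t (q' * y') = X.D.t q' * X.D.t y' := (X.D.mul q' y' hly).symm
  have har := Pool.Agent.Helper15.AM.k_ar S W H X.toBase P Q X.α hPQ (X.pg P hP) (X.pg Q hQ) q g q'
  set Z : H := X.D.t q * X.D.c g * X.D.t q' with hZ
  have hsum := X.eq_sum Z
  have hBx : X.B (x' * q) g (q' * y') = X.D.t x' * Z * X.D.t y' := by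
    simp only [TE.B, hTx, hTy, hZ, mul_assoc]
  rw [hBx, hsum, Finsupp.sum, Finset.mul_sum, Finset.sum_mul]
  refine TE.LP.sum fun k hk => ?_
  have h0 : X.b.repr Z k ≠ 0 := Finsupp.mem_support_iff.mp hk
  obtain ⟨h1, h2, -⟩ := har k hqR hq hg hqL hq'
  have h3 : X.Adm x' k y' := ⟨Q, hQ, hx', h1 h0, hy'⟩
  have h4 := hB x' k y' h3 hlt
  rw [mul_smul_comm, smul_mul_assoc]
  exact TE.LP.smul_le h2 h4 (by omega)

/-- the core: `g = 1`, `P = ∅` or `g = s_i`, `P = {i}` -/
lemma core (X : TE S W H) (M n : ℕ) (hB : X.BP M n) (P : Set S) (hP : Sm P) (hP2 : ∀ v, Sm (P ∪ {v}))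
    (x g y : W) (hx : XR X.cs P x) (hg : g ∈ par X.cs P) (hy : XL X.cs P y)
    (hn : X.cs.length x + X.cs.length y ≤ n) :
    X.LP M ((M : ℤ) - X.α g) (X.B x g y) := by
  classical
  by_cases h1 : x = 1
  · by_cases h2 : y = 1
    · subst h1 h2
      have hb : X.B 1 g 1 = X.D.c g := by
        have ht : X.D.t 1 = 1 := (g_h1 S W H X.M X.cs X.L X.D.toHecke0).1
        rw [TE.B, ht, one_mul, mul_one]
      rw [hb]
      intro z hz
      rw [← X.hb g, Module.Basis.repr_self, Finsupp.single_apply]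
      by_cases hgz : g = z
      · subst hgz
        have hge : ∀ m : ℕ, m ≤ X.α g → X.Ge m g := fun m hm =>
          ⟨1, g, 1, P, hP, hg, by simp, by simp, hm⟩
        have hle : X.α g ≤ M := by
          by_contra hc
          exact hz (hge (M + 1) (by omega))
        rw [if_pos rfl]
        refine ⟨DegLE.one (by omega), fun h => hge M ?_⟩
        by_contra hc
        apply h
        exact (DegLE.one (le_refl (0 : ℤ))) _ (by omega)
      · rw [if_neg hgz]
        exact ⟨DegLE.zero _, fun h => absurd rfl h⟩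
    · obtain ⟨v, hv⟩ := X.cs.exists_leftDescent_of_ne_one h2
      exact step X M n hB P (P ∪ {v}) hP (hP2 v) Set.subset_union_left x g y hx hg hy hn
        ⟨v, Set.mem_union_right _ rfl, Or.inr hv⟩
  · obtain ⟨v, hv⟩ := X.cs.exists_rightDescent_of_ne_one h1
    exact step X M n hB P (P ∪ {v}) hP (hP2 v) Set.subset_union_left x g y hx hg hy hn
      ⟨v, Set.mem_union_right _ rfl, Or.inl hv⟩

theorem t (_ : KD2) (hW : HW0) : HN := by
  intro S W H _ _ _ X M n hB
  obtain ⟨hα1, hαs, -⟩ := hW S W H X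
  obtain ⟨-, -, -, -, -, -, -, hc1, hcs, -⟩ := g_h2 S W H X.M X.cs X.L X.wt X.D
  have hN0 : X.N0 M n := by
    intro u u' hl
    have h := core X M n hB ∅ (Or.inl rfl) (fun v => Or.inr ⟨v, v, by simp⟩) u 1 u'
      (fun i hi => absurd hi (Set.notMem_empty i)) (one_mem _) (fun i hi => absurd hi (Set.notMem_empty i)) hl
    rw [hα1, TE.B, hc1, mul_one, Nat.cast_zero, sub_zero] at h
    exact h
  have hN : ∀ (x y : W) (i : S), ¬ X.cs.IsRightDescent x i → ¬ X.cs.IsLeftDescent y i →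
      X.cs.length x + X.cs.length y ≤ n →
      X.LP M ((M : ℤ) - X.L (X.cs.simple i)) (X.D.t x * X.D.c (X.cs.simple i) * X.D.t y) := by
    intro x y i hx hy hl
    have h := core X M n hB {i} (Or.inr ⟨i, i, by simp⟩)
      (fun v => Or.inr ⟨i, v, by rw [Set.singleton_union]⟩) x (X.cs.simple i) y ?_ ?_ ?_ hl
    · rw [hαs] at h
      exact h
    · rintro j rfl
      exact X.cs.not_isRightDescent_iff.mp hx
    · exact Subgroup.subset_closure ⟨i, rfl, rfl⟩
    · rintro j rfl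
      exact X.cs.not_isLeftDescent_iff.mp hy
  refine ⟨hN0, hN, ?_⟩
  intro u u' b hu hu' hl
  have h1 := hN u u' b hu hu' hl
  have h2 := hN0 u u' hl
  have h3 : X.D.t u * X.D.t (X.cs.simple b) * X.D.t u' =
      X.D.t u * X.D.c (X.cs.simple b) * X.D.t u' -
        (T (-(X.L (X.cs.simple b) : ℤ)) : ℤ[T;T⁻¹]) • (X.D.t u * X.D.t u') := by
    rw [hcs b, mul_add, add_mul, mul_smul_comm, mul_one, smul_mul_assoc, add_sub_cancel_right]
  rw [h3]
  exact h1.sub (TE.LP.smul_T h2 (by omega))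

end Pool.Agent.Helper74.LE.C_HN
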