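import Pool.Agent.Helper74.LE.GoalsI

/-!
# Project LE (copied from the LL proof Helper66/LL/IDEG.lean) (MP_cc6379_al), packet IDEG: upper bound and (B)
-/

set_option autoImplicit false

open LaurentPolynomial Pool.Agent.Helper15.RA Pool.Agent.Helper45.AM

noncomputable section

namespace Pool.Agent.Helper74.LE.C_IDEG

open Pool.Agent.Helper74.LL Pool.Agent.Helper74.LL Pool.Agent.Helper74.LE

variable {S W H : Type} [Group W] [Ring H] [Algebra ℤ[T;T⁻¹] H] (X : TE S W H)

/-- the product of two `T` -/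
theorem tt (hBP : ∀ M n, X.BP M n) (M : ℕ) (u w : W) : X.LP M M (X.D.t u * X.D.t w) := by
  obtain ⟨-, -, -, -, -, -, -, hc1, -⟩ := g_h2 S W H X.M X.cs X.L X.wt X.D
  have hA := (Pool.Agent.Helper15.AM.k_ap S W H X.toBase ∅ X.α (X.pg ∅ (Or.inl rfl))).2.2.2.2.1
  have h := hBP M (X.cs.length u + X.cs.length w + 1) u 1 w
    ⟨∅, Or.inl rfl, fun i hi => absurd hi (by simp), one_mem _, fun i hi => absurd hi (by simp)⟩
    (by omega)
  rw [hA] at h
  simpa [TE.B, hc1] using h

/-- an element is the sum of its `T`-coordinates -/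
theorem tsum (Z : H) : Z = (X.D.t.repr Z).sum fun w p => p • X.D.t w := by
  conv_lhs => rw [← X.D.t.linearCombination_repr Z]
  rw [Finsupp.linearCombination_apply]

theorem degc (x u : W) : DegLE 0 (X.D.t.repr (X.D.c x) u) := by
  obtain ⟨-, -, -, h1, -, h2, -⟩ := g_h2 S W H X.M X.cs X.L X.wt X.D
  by_cases hu : u = x
  · subst hu
    rw [h1]
    exact DegLE.one le_rfl
  · exact (h2 x u hu).mono (by norm_num)

theorem t : Pool.Agent.Helper74.LE.IDEG := by
  intro S W H _ _ _ X a ha hN hBP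
  refine ⟨fun x y z => ?_, ?_⟩
  · have hz : ¬ X.Ge (a z + 1) z := fun h => by
      have := (ha _ _).1 h
      omega
    have h1 : X.LP (a z) (a z) (X.D.c x * X.D.c y) := by
      rw [tsum X (X.D.c x), tsum X (X.D.c y), Finsupp.sum, Finsupp.sum, Finset.sum_mul_sum]
      refine TE.LP.sum fun u _ => TE.LP.sum fun w _ => ?_
      rw [smul_mul_smul_comm]
      exact TE.LP.smul_le ((degc X x u).mul (degc X y w)) (tt X hBP (a z) u w) (by simp)
    have h2 := (h1 z hz).1
    rwa [TE.repr_mul_c] at h2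
  · obtain ⟨N, hN⟩ := hN
    refine ⟨N, fun x y => ?_⟩
    have hab := (Pool.Agent.Helper15.AM.k_ab S W H X.toBase).2.2.2.2.1
    rw [hab (N : ℤ) (X.D.t x * X.D.t y)]
    intro w
    exact (tt X hBP N x y w (hN w)).1

end Pool.Agent.Helper74.LE.C_IDEG
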