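import Pool.Agent.Helper74.LE.GoalsI

/-!
# Project LE (copied from the LL proof Helper33/LL/IU.lean) (MP_cc6379_al), packet LL-IU (helper33)
-/

set_option autoImplicit false

open LaurentPolynomial Pool.Agent.Helper15.RA Pool.Agent.Helper45.AM

noncomputable section

namespace Pool.Agent.Helper74.LE.C_IU

open Pool.Agent.Helper74.LL Pool.Agent.Helper74.LL Pool.Agent.Helper74.LE

variable {S W H : Type} [Group W] [Ring H] [Algebra ℤ[T;T⁻¹] H] (X : TE S W H)

/-- The product of `T_x c_a` and `c_b T_y` in terms of the elements `B`. -/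
theorem prod_eq (x a a' y : W) :
    X.D.t x * X.D.c a * (X.D.c a' * X.D.t y) = (X.h a a').sum fun z p => p • X.B x z y := by
  have h1 : X.D.t x * X.D.c a * (X.D.c a' * X.D.t y) = X.D.t x * (X.D.c a * X.D.c a') * X.D.t y := by
    simp only [mul_assoc]
  rw [h1, X.isH a a', Finsupp.sum, Finsupp.sum, Finset.mul_sum, Finset.sum_mul]
  refine Finset.sum_congr rfl fun z _ => ?_
  unfold TE.B
  rw [mul_smul_comm, smul_mul_assoc]

theorem repr_prod (x a a' y u : W) :
    X.b.repr (X.D.t x * X.D.c a * (X.D.c a' * X.D.t y)) u =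
      (X.h a a').sum fun z p => p * X.b.repr (X.B x z y) u := by
  rw [prod_eq, Finsupp.sum, map_sum, Finsupp.finsetSum_apply]
  refine Finset.sum_congr rfl fun z _ => ?_
  rw [map_smul, Finsupp.smul_apply, smul_eq_mul]

/-- The coefficient of `v^M` in `h (x g₁) (g₂ y) u`. -/
theorem e4 (hBP : ∀ M n, X.BP M n) (M : ℕ) (I : Set S) (hI : Sm I) (x g₁ g₂ y u : W)
    (hx : XR X.cs I x) (hg₁ : g₁ ∈ par X.cs I) (hg₂ : g₂ ∈ par X.cs I) (hy : XL X.cs I y)
    (hα : X.α g₁ = M) (hu : ¬ X.Ge (M + 1) u) :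
    (X.h (x * g₁) (g₂ * y) u).coeff M =
      (X.h g₁ g₂).sum fun g' p => p.coeff (X.α g') * (X.b.repr (X.B x g' y) u).coeff 0 := by
  have hsup : ∀ a ∈ par X.cs I, ∀ a' ∈ par X.cs I, ∀ z, X.h a a' z ≠ 0 →
      z ∈ par X.cs I := (Pool.Agent.Helper15.AM.k_as S W H X.toBase I).2.2.2.2.2.1
  have hB : ∀ x', XR X.cs I x' → ∀ z ∈ par X.cs I, ∀ y', XL X.cs I y' →
      DegLE ((M : ℤ) - X.α z) (X.b.repr (X.B x' z y') u) := by
    intro x' hx' z hz y' hy'
    exact (hBP M (X.cs.length x' + X.cs.length y' + 1) x' z y' ⟨I, hI, hx', hz, hy'⟩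
      (Nat.lt_succ_self _) u hu).1
  have hZ : ∀ x', XR X.cs I x' → ∀ a ∈ par X.cs I, ∀ a' ∈ par X.cs I,
      ∀ y', XL X.cs I y' →
      DegLE M (X.b.repr (X.D.t x' * X.D.c a * (X.D.c a' * X.D.t y')) u) := by
    intro x' hx' a ha a' ha' y' hy'
    rw [repr_prod, Finsupp.sum]
    refine DegLE.sum fun z hz => ?_
    have hz' := hsup a ha a' ha' z (Finsupp.mem_support_iff.1 hz)
    exact DegLE.mul_le ((X.pg I hI).deg a ha a' ha' z hz') (hB x' hx' z hz' y' hy') (by omega)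
  obtain ⟨-, -, -, p, hp1, hp2, hp3⟩ :=
    Pool.Agent.Helper15.AM.k_ak S W H X.toBase I x g₁ hx hg₁
  obtain ⟨-, -, -, p', hp1', hp2', hp3'⟩ :=
    Pool.Agent.Helper15.AM.k_al S W H X.toBase I g₂ y hy hg₂
  have hA : X.D.c (x * g₁) * X.D.c (g₂ * y) =
      X.D.t x * X.D.c g₁ * (X.D.c g₂ * X.D.t y) +
      (∑ r ∈ p'.support, p' r • (X.D.t x * X.D.c g₁ * (X.D.c r.1 * X.D.t r.2)) +
      (∑ r ∈ p.support, p r • (X.D.t r.1 * X.D.c r.2 * (X.D.c g₂ * X.D.t y)) +
      ∑ r ∈ p.support, ∑ r' ∈ p'.support, p r • (p' r' •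
        (X.D.t r.1 * X.D.c r.2 * (X.D.c r'.1 * X.D.t r'.2))))) := by
    rw [hp3, hp3', Finsupp.sum, Finsupp.sum, add_mul, mul_add, mul_add, Finset.sum_mul,
      Finset.mul_sum, Finset.sum_mul, add_assoc]
    congr 2
    · refine Finset.sum_congr rfl fun r _ => ?_
      rw [mul_smul_comm]
    · congr 1
      · refine Finset.sum_congr rfl fun r _ => ?_
        rw [smul_mul_assoc]
      · refine Finset.sum_congr rfl fun r _ => ?_
        rw [Finset.mul_sum]
        refine Finset.sum_congr rfl fun r' _ => ?_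
        rw [smul_mul_assoc, mul_smul_comm]
  have hX : X.b.repr (X.D.c (x * g₁) * X.D.c (g₂ * y)) = X.h (x * g₁) (g₂ * y) :=
    (Pool.Agent.Helper15.AM.k_ab S W H X.toBase).1 _ _
  have key : X.h (x * g₁) (g₂ * y) u =
      X.b.repr (X.D.t x * X.D.c g₁ * (X.D.c g₂ * X.D.t y)) u +
      (∑ r ∈ p'.support, p' r * X.b.repr (X.D.t x * X.D.c g₁ * (X.D.c r.1 * X.D.t r.2)) u +
      (∑ r ∈ p.support, p r * X.b.repr (X.D.t r.1 * X.D.c r.2 * (X.D.c g₂ * X.D.t y)) u +
      ∑ r ∈ p.support, ∑ r' ∈ p'.support, p r * (p' r' *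
        X.b.repr (X.D.t r.1 * X.D.c r.2 * (X.D.c r'.1 * X.D.t r'.2)) u))) := by
    rw [← hX, hA]
    simp only [map_add, map_sum, map_smul, Finsupp.add_apply, Finsupp.finsetSum_apply,
      Finsupp.smul_apply, smul_eq_mul]
  have e1 : (X.h (x * g₁) (g₂ * y) u).coeff (M : ℤ) =
      (X.b.repr (X.D.t x * X.D.c g₁ * (X.D.c g₂ * X.D.t y)) u).coeff (M : ℤ) := by
    have hrest : DegLE ((M : ℤ) - 1)
        (∑ r ∈ p'.support, p' r * X.b.repr (X.D.t x * X.D.c g₁ * (X.D.c r.1 * X.D.t r.2)) u +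
        (∑ r ∈ p.support, p r * X.b.repr (X.D.t r.1 * X.D.c r.2 * (X.D.c g₂ * X.D.t y)) u +
        ∑ r ∈ p.support, ∑ r' ∈ p'.support, p r * (p' r' *
          X.b.repr (X.D.t r.1 * X.D.c r.2 * (X.D.c r'.1 * X.D.t r'.2)) u))) := by
      refine DegLE.add (DegLE.sum fun r hr => ?_) (DegLE.add (DegLE.sum fun r hr => ?_)
        (DegLE.sum fun r hr => DegLE.sum fun r' hr' => ?_))
      · obtain ⟨k1, k2, -, -⟩ := hp2' r hr
        exact DegLE.mul_le (hp1' r) (hZ x hx g₁ hg₁ _ k1 _ k2) (by omega)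
      · obtain ⟨k1, k2, -, -⟩ := hp2 r hr
        exact DegLE.mul_le (hp1 r) (hZ _ k1 _ k2 g₂ hg₂ y hy) (by omega)
      · obtain ⟨k1, k2, -, -⟩ := hp2 r hr
        obtain ⟨k1', k2', -, -⟩ := hp2' r' hr'
        exact DegLE.mul_le (hp1 r) (DegLE.mul_le (m := (M : ℤ) - 1) (hp1' r')
          (hZ _ k1 _ k2 _ k1' _ k2') (by omega)) (by omega)
    have h2 := hrest M (by omega)
    rw [key, AddMonoidAlgebra.coeff_add, Finsupp.add_apply, h2, add_zero]
  have hcs : ∀ (s : Finset W) (f : W → ℤ[T;T⁻¹]) (n : ℤ),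
      (∑ z ∈ s, f z).coeff n = ∑ z ∈ s, (f z).coeff n := by
    classical
    intro s f n
    induction s using Finset.induction_on with
    | empty => rfl
    | insert i s hi ih =>
      rw [Finset.sum_insert hi, Finset.sum_insert hi, AddMonoidAlgebra.coeff_add,
        Finsupp.add_apply, ih]
  rw [e1, repr_prod, Finsupp.sum, Finsupp.sum, hcs]
  refine Finset.sum_congr rfl fun z hz => ?_
  have hz' := hsup g₁ hg₁ g₂ hg₂ z (Finsupp.mem_support_iff.1 hz)
  have h1 := coeff_mul_top ((X.pg I hI).deg g₁ hg₁ g₂ hg₂ z hz') (hB x hx z hz' y hy)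
  rw [add_sub_cancel] at h1
  rw [h1]
  by_cases h0 : (X.h g₁ g₂ z).coeff (X.α z : ℤ) = 0
  · rw [h0, zero_mul, zero_mul]
  · have h2 := ((X.pg I hI).p8 g₁ hg₁ g₂ hg₂ z hz' h0).1
    rw [← h2, hα, sub_self]

/-- `T`-support in lengths `< n`. -/
def Sup (n : ℕ) (Z : H) : Prop := ∀ w, n ≤ X.cs.length w → X.D.t.repr Z w = 0

variable {X}

theorem Sup.add {n : ℕ} {Y Z : H} (hY : Sup X n Y) (hZ : Sup X n Z) : Sup X n (Y + Z) := by
  intro w hw
  rw [map_add, Finsupp.add_apply, hY w hw, hZ w hw, add_zero]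

theorem Sup.smul {n : ℕ} {Z : H} (p : ℤ[T;T⁻¹]) (hZ : Sup X n Z) : Sup X n (p • Z) := by
  intro w hw
  rw [map_smul, Finsupp.smul_apply, hZ w hw, smul_zero]

theorem Sup.sum {ι : Type*} {n : ℕ} {s : Finset ι} {f : ι → H} (h : ∀ i ∈ s, Sup X n (f i)) :
    Sup X n (∑ i ∈ s, f i) := by
  intro w hw
  rw [map_sum, Finsupp.finsetSum_apply]
  exact Finset.sum_eq_zero fun i hi => h i hi w hw

variable (X)

theorem t_sum (Z : H) : Z = ∑ w ∈ (X.D.t.repr Z).support, X.D.t.repr Z w • X.D.t w := by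
  conv_lhs => rw [← X.D.t.linearCombination_repr Z]
  rw [Finsupp.linearCombination_apply]
  rfl

theorem Sup.t {n : ℕ} {w : W} (h : X.cs.length w < n) : Sup X n (X.D.t w) := by
  classical
  intro u hu
  rw [Module.Basis.repr_self, Finsupp.single_apply, if_neg]
  rintro rfl
  omega

theorem Sup.tt {n : ℕ} {x y : W} (h : X.cs.length x + X.cs.length y < n) :
    Sup X n (X.D.t x * X.D.t y) := by
  intro u hu
  by_contra hc
  have := (g_h1 S W H X.M X.cs X.L X.D.toHecke1.toHecke0).2.2.2.2.2.1 x y u hc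
  omega

theorem Sup.ttt {n : ℕ} {x w y : W} (h : X.cs.length x + X.cs.length w + X.cs.length y < n) :
    Sup X n (X.D.t x * X.D.t w * X.D.t y) := by
  rw [t_sum X (X.D.t x * X.D.t w), Finset.sum_mul]
  refine Sup.sum fun v hv => ?_
  rw [smul_mul_assoc]
  refine Sup.smul _ (Sup.tt X ?_)
  have := (g_h1 S W H X.M X.cs X.L X.D.toHecke1.toHecke0).2.2.2.2.2.1 x w v
    (Finsupp.mem_support_iff.1 hv)
  omega

theorem Sup.repr {n : ℕ} {Z : H} (hZ : Sup X n Z) (u : W) (hu : n ≤ X.cs.length u) :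
    X.b.repr Z u = 0 := by
  rw [t_sum X Z, map_sum, Finsupp.finsetSum_apply]
  refine Finset.sum_eq_zero fun w hw => ?_
  rw [map_smul, Finsupp.smul_apply]
  have h1 : X.cs.length w < n := by
    by_contra hc
    exact Finsupp.mem_support_iff.1 hw (hZ w (not_lt.1 hc))
  have h2 : X.b.repr (X.D.t w) u = 0 := by
    by_contra hc
    rcases (Pool.Agent.Helper15.AM.k_ab S W H X.toBase).2.2.2.1 w u hc with h | h
    · rw [h] at hu
      omega
    · omega
  rw [h2, smul_zero]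

/-- The leading term of `B x g y`. -/
theorem B_lead {x g y z : W} (hz : z = x * g * y)
    (hl : X.cs.length z = X.cs.length x + X.cs.length g + X.cs.length y) :
    ∃ Z, Sup X (X.cs.length z) Z ∧ X.B x g y = X.D.t z + Z := by
  classical
  obtain ⟨-, -, -, h1, h2, h3, -⟩ := g_h2 S W H X.M X.cs X.L X.wt X.D
  have e1 : X.D.t x * X.D.t g * X.D.t y = X.D.t z := by
    have k1 := X.cs.length_mul_le x g
    have k2 := X.cs.length_mul_le (x * g) y
    rw [← hz] at k2
    rw [X.D.mul x g (by omega), X.D.mul (x * g) y (by rw [← hz]; omega), hz]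
  have hg : g ∈ (X.D.t.repr (X.D.c g)).support := by
    rw [Finsupp.mem_support_iff, h1]
    exact one_ne_zero
  refine ⟨∑ w ∈ (X.D.t.repr (X.D.c g)).support.erase g,
    X.D.t.repr (X.D.c g) w • (X.D.t x * X.D.t w * X.D.t y), ?_, ?_⟩
  · refine Sup.sum fun w hw => Sup.smul _ (Sup.ttt X ?_)
    obtain ⟨h4, h5⟩ := Finset.mem_erase.1 hw
    rcases h2 g w (Finsupp.mem_support_iff.1 h5) with h6 | h6
    · exact absurd h6 h4
    · omega
  · unfold TE.B
    conv_lhs => rw [t_sum X (X.D.c g), Finset.mul_sum, Finset.sum_mul]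
    rw [← Finset.add_sum_erase _ _ hg, h1, one_smul, e1]
    congr 1
    refine Finset.sum_congr rfl fun w _ => ?_
    rw [mul_smul_comm, smul_mul_assoc]

theorem B_repr {x g y z : W} (hz : z = x * g * y)
    (hl : X.cs.length z = X.cs.length x + X.cs.length g + X.cs.length y) :
    X.b.repr (X.B x g y) z = 1 ∧
      ∀ u, u ≠ z → X.cs.length z ≤ X.cs.length u → X.b.repr (X.B x g y) u = 0 := by
  obtain ⟨Z, h1, h2⟩ := B_lead X hz hl
  obtain ⟨-, k1, -, k3, -⟩ := Pool.Agent.Helper15.AM.k_ab S W H X.toBase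
  constructor
  · rw [h2, map_add, Finsupp.add_apply, k1, Sup.repr X h1 z le_rfl, add_zero]
  · intro u hu hl'
    rw [h2, map_add, Finsupp.add_apply, Sup.repr X h1 u hl', add_zero]
    by_contra hc
    rcases k3 z u hc with h | h
    · exact hu h
    · omega

/-- **LL-IU**. -/
theorem t (hIGE : IGE) : IU := by
  intro S W H _ _ _ _ X a ha hBP hp4 z
  classical
  obtain ⟨-, -, -, -, ge5, ge6, ge7⟩ := hIGE S W H X
  obtain ⟨x, g, y, I, hI, hx, hg, hy, hz, hl, hMg⟩ := ge7 (a z) z ((ha _ _).2 le_rfl)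
  have hag : X.α g = a z := by
    refine le_antisymm ?_ hMg
    exact (ha _ _).1 ⟨x, g, y, I, hI, hg, hz, hl, le_rfl⟩
  obtain ⟨lam, hl1, hl2, hl3⟩ :=
    (Pool.Agent.Helper15.AM.k_aj S W H X.toBase I X.α (X.pg I hI)).2.2.2.2 g hg
  have hP := (Pool.Agent.Helper15.AM.k_ap S W H X.toBase I X.α (X.pg I hI)).2.2.1
  have hsup : ∀ a ∈ par X.cs I, ∀ a' ∈ par X.cs I, ∀ z, X.h a a' z ≠ 0 →
      z ∈ par X.cs I := (Pool.Agent.Helper15.AM.k_as S W H X.toBase I).2.2.2.2.2.1
  have hal : ∀ p ∈ lam.support, X.α p.1 = a z := by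
    intro p hp
    obtain ⟨h1, h2, h3, h4⟩ := hl1 p hp
    have h5 := (hP p.1 g hg h3.1).2
    have h6 := (hP g p.1 h1 h3.2).2
    omega
  have hge : ∀ p ∈ lam.support, a z ≤ a (x * p.1) := by
    intro p hp
    obtain ⟨h1, h2, h3, h4⟩ := hl1 p hp
    rw [← ha]
    refine ge6 _ _ _ ((Pool.Agent.Helper15.AM.k_gpa S W X.M X.cs I).2.2 x hx p.1 h1) (Or.inr ?_)
    rw [ge5 I p.1 _ hI h1, hal p hp]
  -- the sum over `lam`
  have hmain : ∀ u, a u = a z → (lam.sum fun p m => m * (X.h (x * p.1) (p.2 * y) u).coeff (a z)) =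
      (X.b.repr (X.B x g y) u).coeff 0 := by
    intro u hu
    have hu' : ¬ X.Ge (a z + 1) u := by
      rw [ha]
      omega
    set R : W → ℤ := fun g' => (X.b.repr (X.B x g' y) u).coeff 0 with hR
    set s : Finset W := insert g (lam.support.biUnion fun p => (X.h p.1 p.2).support) with hs
    have h1 : ∀ p ∈ lam.support, lam p * (X.h (x * p.1) (p.2 * y) u).coeff (a z) =
        ∑ g' ∈ s, lam p * (X.h p.1 p.2 g').coeff (X.α g') * R g' := by
      intro p hp
      obtain ⟨k1, k2, k3, k4⟩ := hl1 p hp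
      rw [e4 X hBP (a z) I hI x p.1 p.2 y u hx k1 k2 hy (hal p hp) hu', Finsupp.sum]
      have h2 : ∑ g' ∈ (X.h p.1 p.2).support, (X.h p.1 p.2 g').coeff (X.α g' : ℤ) * R g' =
          ∑ g' ∈ s, (X.h p.1 p.2 g').coeff (X.α g' : ℤ) * R g' := by
        refine Finset.sum_subset ?_ ?_
        · intro g' hg'
          exact Finset.mem_insert_of_mem (Finset.mem_biUnion.2 ⟨p, hp, hg'⟩)
        · intro g' _ hg'
          rw [Finsupp.notMem_support_iff.1 hg']
          simp
      rw [h2, Finset.mul_sum]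
      refine Finset.sum_congr rfl fun g' _ => ?_
      rw [mul_assoc]
    rw [Finsupp.sum, Finset.sum_congr rfl h1, Finset.sum_comm]
    rw [Finset.sum_eq_single g]
    · rw [← Finset.sum_mul]
      have h3 : ∑ p ∈ lam.support, lam p * (X.h p.1 p.2 g).coeff (X.α g : ℤ) = 1 := hl2
      rw [h3, one_mul]
    · intro g' _ hg'
      rw [← Finset.sum_mul]
      by_cases h4 : g' ∈ par X.cs I
      · have h3 : ∑ p ∈ lam.support, lam p * (X.h p.1 p.2 g').coeff (X.α g' : ℤ) = 0 :=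
          hl3 g' h4 hg'
        rw [h3, zero_mul]
      · rw [Finset.sum_eq_zero, zero_mul]
        intro p hp
        obtain ⟨k1, k2, k3, k4⟩ := hl1 p hp
        have h5 : X.h p.1 p.2 g' = 0 := by
          by_contra hc
          exact h4 (hsup _ k1 _ k2 g' hc)
        rw [h5]
        simp
    · intro hc
      exact absurd (Finset.mem_insert_self _ _) hc
  -- the filtered sum
  have hfil : ∀ u, a u = a z →
      (((lam.filter fun p => a (x * p.1) = a z).mapDomain
        fun p : W × W => (x * p.1, p.2 * y)).sum fun p m => m * (X.h p.1 p.2 u).coeff (a z)) =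
      (X.b.repr (X.B x g y) u).coeff 0 := by
    intro u hu
    rw [Finsupp.sum_mapDomain_index (fun p => by rw [zero_mul]) (fun p m n => by rw [add_mul]),
      ← hmain u hu, Finsupp.sum, Finsupp.sum, Finsupp.support_filter, Finset.sum_filter]
    refine Finset.sum_congr rfl fun p hp => ?_
    by_cases h1 : a (x * p.1) = a z
    · rw [if_pos h1, Finsupp.filter_apply_pos (fun p : W × W => a (x * p.1) = a z) lam h1]
    · rw [if_neg h1]
      have h2 := hge p hp
      have h3 : X.h (x * p.1) (p.2 * y) u = 0 := by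
        by_contra hc
        have := (hp4 _ _ _ hc).1
        omega
      rw [h3]
      simp
  obtain ⟨r1, r2⟩ := B_repr X hz hl
  refine ⟨(lam.filter fun p => a (x * p.1) = a z).mapDomain
        fun p : W × W => (x * p.1, p.2 * y), ?_, ?_, ?_⟩
  · intro p hp
    obtain ⟨q, hq, hqp⟩ := Finset.mem_image.1 (Finsupp.mapDomain_support hp)
    rw [Finsupp.support_filter, Finset.mem_filter] at hq
    rw [← hqp]
    exact hq.2
  · rw [hfil z rfl, r1]
    exact AddMonoidAlgebra.coeff_one_zero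
  · intro u hu huz hul
    rw [hfil u hu, r2 u huz hul]
    rfl

end Pool.Agent.Helper74.LE.C_IU
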